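import Pool.Agent.H240.GU.Def

/-!
# GU-9: the curvature is bounded below
-/

set_option autoImplicit false
set_option linter.unusedSectionVars false

open Set Filter Topology MeasureTheory
open scoped ContDiff ComplexConjugate Real

noncomputable section

namespace Pool.Agent.H591.GU

open Pool.Agent.Y262.EG
open Pool.Agent.H240.CG (curv_congr)
open Pool.Agent.H240.AL
open Pool.Agent.H240.GU

theorem px_const (φ : ℂ → ℝ) (k : ℝ) : px (fun z => φ z + k) = px φ := by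
  funext z
  unfold px
  rw [fderiv_add_const]

theorem py_const (φ : ℂ → ℝ) (k : ℝ) : py (fun z => φ z + k) = py φ := by
  funext z
  unfold py
  rw [fderiv_add_const]

theorem curv_const (φ : ℂ → ℝ) (k : ℝ) (z : ℂ) :
    curv (fun z => φ z + k) z = Real.exp (-2 * k) * curv φ z := by
  unfold curv
  rw [px_const, py_const, show -2 * (φ z + k) = -2 * k + -2 * φ z by ring, Real.exp_add]
  ring

theorem px_smooth {O : Set ℂ} (hO : IsOpen O) {f : ℂ → ℝ} (hf : ContDiffOn ℝ ∞ f O) :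
    ContDiffOn ℝ ∞ (px f) O :=
  (hf.fderiv_of_isOpen hO (by simp)).clm_apply contDiffOn_const

theorem py_smooth {O : Set ℂ} (hO : IsOpen O) {f : ℂ → ℝ} (hf : ContDiffOn ℝ ∞ f O) :
    ContDiffOn ℝ ∞ (py f) O :=
  (hf.fderiv_of_isOpen hO (by simp)).clm_apply contDiffOn_const

theorem diffAt {O : Set ℂ} (hO : IsOpen O) {f : ℂ → ℝ} (hf : ContDiffOn ℝ ∞ f O) {z : ℂ}
    (hz : z ∈ O) : DifferentiableAt ℝ f z :=
  (hf.contDiffAt (hO.mem_nhds hz)).differentiableAt (by simp)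

theorem Lp2_add {O : Set ℂ} (hO : IsOpen O) {f g : ℂ → ℝ} (hf : ContDiffOn ℝ ∞ f O)
    (hg : ContDiffOn ℝ ∞ g O) {z : ℂ} (hz : z ∈ O) :
    Lp2 (fun z => f z + g z) z = Lp2 f z + Lp2 g z := by
  have h1 : px (fun z => f z + g z) =ᶠ[𝓝 z] fun z => px f z + px g z := by
    filter_upwards [hO.mem_nhds hz] with ζ hζ
    unfold px
    rw [fderiv_fun_add (diffAt hO hf hζ) (diffAt hO hg hζ)]
    rfl
  have h2 : py (fun z => f z + g z) =ᶠ[𝓝 z] fun z => py f z + py g z := by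
    filter_upwards [hO.mem_nhds hz] with ζ hζ
    unfold py
    rw [fderiv_fun_add (diffAt hO hf hζ) (diffAt hO hg hζ)]
    rfl
  have h3 : px (px (fun z => f z + g z)) z = px (px f) z + px (px g) z := by
    show fderiv ℝ (px (fun z => f z + g z)) z 1 = _
    rw [h1.fderiv_eq, fderiv_fun_add (diffAt hO (px_smooth hO hf) hz)
      (diffAt hO (px_smooth hO hg) hz)]
    rfl
  have h4 : py (py (fun z => f z + g z)) z = py (py f) z + py (py g) z := by
    show fderiv ℝ (py (fun z => f z + g z)) z Complex.I = _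
    rw [h2.fderiv_eq, fderiv_fun_add (diffAt hO (py_smooth hO hf) hz)
      (diffAt hO (py_smooth hO hg) hz)]
    rfl
  unfold Lp2
  rw [h3, h4]
  ring

theorem fd_re {H : ℝ → ℝ} (hH : Differentiable ℝ H) (x0 : ℝ) (z : ℂ) :
    HasFDerivAt (fun z : ℂ => H (z.re - x0)) (deriv H (z.re - x0) • Complex.reCLM) z := by
  have h1 : HasFDerivAt (fun z : ℂ => z.re - x0) Complex.reCLM z :=
    (Complex.reCLM.hasFDerivAt (x := z)).sub_const x0
  exact (hH.differentiableAt.hasDerivAt (x := z.re - x0)).comp_hasFDerivAt z h1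

theorem px_re {H : ℝ → ℝ} (hH : Differentiable ℝ H) (x0 : ℝ) :
    px (fun z : ℂ => H (z.re - x0)) = fun z => deriv H (z.re - x0) := by
  funext z
  unfold px
  rw [(fd_re hH x0 z).fderiv]
  simp

theorem py_re {H : ℝ → ℝ} (hH : Differentiable ℝ H) (x0 : ℝ) :
    py (fun z : ℂ => H (z.re - x0)) = fun _ => 0 := by
  funext z
  unfold py
  rw [(fd_re hH x0 z).fderiv]
  simp

theorem Lp2_re {H : ℝ → ℝ} (hH : ContDiff ℝ ∞ H) (x0 : ℝ) (z : ℂ) :
    Lp2 (fun z : ℂ => H (z.re - x0)) z = iteratedDeriv 2 H (z.re - x0) := by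
  have h1 : Differentiable ℝ H := hH.differentiable (by simp)
  have h2 : Differentiable ℝ (deriv H) := by
    have h3 : ContDiff ℝ ∞ (deriv H) := by
      have h4 := (contDiff_infty_iff_deriv (𝕜 := ℝ)).1 hH
      exact h4.2
    exact h3.differentiable (by simp)
  unfold Lp2
  rw [px_re h1, py_re h1, px_re h2, iteratedDeriv_succ, iteratedDeriv_one]
  have h5 : py (fun _ : ℂ => (0 : ℝ)) z = 0 := by
    unfold py
    simp
  rw [h5, add_zero]

/-- a bound on the strip -/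
theorem strip_bound {φ : ℂ → ℝ} {x0 δ : ℝ} (hδ : 0 < δ) (hφ : ContinuousOn φ (Sx x0 δ))
    (hper : ∀ z ∈ Sx x0 δ, φ (z + 2 * π * Complex.I) = φ z) :
    ∃ C : ℝ, 0 ≤ C ∧ ∀ z : ℂ, |z.re - x0| ≤ δ / 2 → |φ z| ≤ C := by
  have hK : IsCompact (Icc (x0 - δ / 2) (x0 + δ / 2) ×ℂ Icc 0 (2 * π)) :=
    isCompact_Icc.reProdIm isCompact_Icc
  have hsub : (Icc (x0 - δ / 2) (x0 + δ / 2) ×ℂ Icc 0 (2 * π)) ⊆ Sx x0 δ := by
    intro z hz
    rw [Complex.mem_reProdIm, mem_Icc] at hz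
    show |z.re - x0| < δ
    rw [abs_lt]
    constructor <;> linarith [hz.1.1, hz.1.2]
  obtain ⟨C, hC⟩ := hK.exists_bound_of_continuousOn (hφ.mono hsub)
  refine ⟨max C 0, le_max_right _ _, fun z hz => ?_⟩
  have hz2 : |z.re - x0| < δ := by linarith
  have hp : Function.Periodic (fun y : ℝ => φ ⟨z.re, y⟩) (2 * π) := by
    intro y
    have h1 := hper ⟨z.re, y⟩ hz2
    have e : (⟨z.re, y⟩ : ℂ) + 2 * π * Complex.I = ⟨z.re, y + 2 * π⟩ := by
      apply Complex.ext <;> simp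
    rw [e] at h1
    exact h1
  obtain ⟨y, hy, hy2⟩ := hp.exists_mem_Ico₀ (by positivity) z.im
  have e1 : φ z = φ ⟨z.re, y⟩ := hy2
  rw [e1]
  refine le_trans ?_ (le_max_left _ _)
  refine hC ⟨z.re, y⟩ ?_
  rw [Complex.mem_reProdIm]
  rw [abs_le] at hz
  exact ⟨⟨by linarith [hz.1], by linarith [hz.2]⟩, hy.1, hy.2.le⟩

theorem curv_contOn {Ω : Set ℂ} (hO : IsOpen Ω) {φ : ℂ → ℝ} (hφ : ContDiffOn ℝ ∞ φ Ω) :
    ContinuousOn (curv φ) Ω := by
  unfold curv
  have h1 := (px_smooth hO (px_smooth hO hφ)).continuousOn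
  have h2 := (py_smooth hO (py_smooth hO hφ)).continuousOn
  exact ((Real.continuous_exp.comp_continuousOn (continuousOn_const.mul hφ.continuousOn)).mul
    (h1.add h2)).neg

/-- the curvature is bounded -/
theorem curv_bound {M P : Type} [MetricSpace M] [CompactSpace M] [MetricSpace P] {Ω : Set ℂ}
    {φ : ℂ → ℝ} {pr : ℂ → M} {q : Y → P} (hU : IsUT Ω φ pr q)
    (hinv : ∀ z w, z ∈ Ω → w ∈ Ω → pr z = pr w → curv φ z = curv φ w) :
    ∃ K : ℝ, 0 ≤ K ∧ ∀ z ∈ Ω, |curv φ z| ≤ K := by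
  have hc := curv_contOn hU.opn hU.smooth
  -- the open sets
  let O : ℕ → Set ℂ := fun n => Ω ∩ {z | |curv φ z| < n}
  have hO : ∀ n, IsOpen (O n) := by
    intro n
    have h1 : ContinuousOn (fun z => |curv φ z|) Ω := hc.abs
    exact h1.isOpen_inter_preimage hU.opn isOpen_Iio
  have hcov : (univ : Set M) ⊆ ⋃ n, pr '' O n := by
    intro x _
    have hx : x ∈ pr '' Ω := by rw [hU.surjp]; exact mem_univ x
    obtain ⟨z, hz, rfl⟩ := hx
    obtain ⟨n, hn⟩ := exists_nat_gt |curv φ z|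
    exact mem_iUnion.2 ⟨n, z, ⟨hz, hn⟩, rfl⟩
  obtain ⟨t, ht⟩ := isCompact_univ.elim_finite_subcover (fun n => pr '' O n)
    (fun n => hU.opnp _ (hO n) inter_subset_left) hcov
  refine ⟨(t.sup id : ℕ), Nat.cast_nonneg _, fun z hz => ?_⟩
  have h1 := ht (mem_univ (pr z))
  rw [mem_iUnion₂] at h1
  obtain ⟨n, hn, z', hz', he⟩ := h1
  rw [hinv z z' hz hz'.1 he.symm]
  refine hz'.2.le.trans ?_
  have h2 : n ≤ t.sup id := Finset.le_sup (f := id) hn
  exact_mod_cast h2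

theorem stKb (hC : StCx) : StKb := by
  intro M P _ _ _ _ Ω φ pr q x0 δ hU hCo B
  obtain ⟨hinv, hper, -⟩ := hC M P Ω φ pr q x0 δ hU hCo
  have hδ := hCo.δp
  have hS : IsOpen (Sx x0 δ) := isOpen_lt (by fun_prop) continuous_const
  have hSΩ : Sx x0 δ ⊆ Ω := fun z hz => hCo.sub z hz
  have hφS : ContDiffOn ℝ ∞ φ (Sx x0 δ) := hU.smooth.mono hSΩ
  obtain ⟨C, hC0, hCb⟩ := strip_bound hδ hφS.continuousOn hper
  obtain ⟨K, hK0, hK⟩ := curv_bound hU hinv
  refine ⟨Real.exp (2 * (C + 4)) * (|B| + 1) + Real.exp 4 * K, ?_⟩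
  intro w c H cH hw hw1 hc hwz hwB hH hHz hHb hcH
  have a1 : 0 ≤ Real.exp (2 * (C + 4)) * (|B| + 1) := by positivity
  have a2 : 0 ≤ Real.exp 4 * K := by positivity
  set W : ℂ → ℝ := fun z => w z + H (z.re - x0) with hW
  have hHS : ContDiffOn ℝ ∞ (fun z : ℂ => H (z.re - x0)) (Sx x0 δ) :=
    (hH.comp ((Complex.reCLM.contDiff).sub contDiff_const)).contDiffOn
  have hCw : Cw x0 δ W := by
    refine ⟨hw.sm.add hHS, ?_, ⟨δ / 2, by linarith, ?_⟩⟩
    · intro z hz
      have e : (z + 2 * π * Complex.I).re = z.re := by simp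
      show w (z + 2 * π * Complex.I) + H ((z + 2 * π * Complex.I).re - x0) = _
      rw [e, hw.per z hz]
    · intro z hz hz2
      show w z + H (z.re - x0) = 0
      rw [hwz z hz hz2, hHz _ hz2, add_zero]
  obtain ⟨-, -, hCx⟩ := hC M P Ω φ pr q x0 δ hU hCo
  obtain ⟨b1, b2, b3, b4, b5⟩ := hCx W hCw
  have hVs : ContDiffOn ℝ ∞ (fun z => Vm pr x0 δ w c H cH (pr z)) Ω := contDiffOn_const.add b1
  -- the metric
  have hUT : IsUT Ω (fun z => φ z + Vm pr x0 δ w c H cH (pr z)) pr q := by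
    have h1 := (tUTs M P Ω φ pr q hU _ hVs 2).1
    have e1 : (fun z => φ z + 2 / 2 * Vm pr x0 δ w c H cH (pr z)) =
        fun z => φ z + Vm pr x0 δ w c H cH (pr z) := by
      funext z
      ring
    rwa [e1] at h1
  obtain ⟨hinv', -, -⟩ := hC M P Ω _ pr q x0 δ hUT hCo
  -- far from the collar
  have key0 : ∀ z ∈ Ω, (fun ζ => cx pr x0 δ W (pr ζ)) =ᶠ[𝓝 z] (fun _ => 0) →
      -(Real.exp (2 * (C + 4)) * (|B| + 1) + Real.exp 4 * K) ≤
        curv (fun z => φ z + Vm pr x0 δ w c H cH (pr z)) z := by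
    intro z hz hev
    have h1 : (fun z => φ z + Vm pr x0 δ w c H cH (pr z)) =ᶠ[𝓝 z] fun z => φ z + (c + cH) := by
      filter_upwards [hev] with ζ hζ
      show φ ζ + ((c + cH) + cx pr x0 δ W (pr ζ)) = _
      rw [hζ, add_zero]
    rw [curv_congr h1, curv_const]
    have h2 := (abs_le.1 (hK z hz)).1
    have h3 : Real.exp (-2 * (c + cH)) ≤ Real.exp 4 := by
      refine Real.exp_le_exp.2 ?_
      linarith [(abs_le.1 hc).1, (abs_le.1 hcH).1]
    have h4 := Real.exp_pos (-2 * (c + cH))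
    have h5 : Real.exp (-2 * (c + cH)) * K ≤ Real.exp 4 * K := mul_le_mul_of_nonneg_right h3 hK0
    nlinarith
  -- in the collar
  have key1 : ∀ z ∈ Sx x0 δ, -(Real.exp (2 * (C + 4)) * (|B| + 1) + Real.exp 4 * K) ≤
        curv (fun z => φ z + Vm pr x0 δ w c H cH (pr z)) z := by
    intro z hz
    rcases le_or_gt |z.re - x0| (δ / 2) with hz2 | hz2
    · have h1 : (fun z => φ z + Vm pr x0 δ w c H cH (pr z)) =ᶠ[𝓝 z]
          fun z => ((φ z + w z) + H (z.re - x0)) + (c + cH) := by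
        filter_upwards [hS.mem_nhds hz] with ζ hζ
        show φ ζ + ((c + cH) + cx pr x0 δ W (pr ζ)) = _
        rw [b3 ζ hζ]
        show φ ζ + ((c + cH) + (w ζ + H (ζ.re - x0))) = _
        ring
      rw [curv_congr h1, curv_const]
      have h2 : curv (fun z => (φ z + w z) + H (z.re - x0)) z =
          -(Real.exp (-2 * ((φ z + w z) + H (z.re - x0))) *
            (Lp2 (fun z => φ z + w z) z + iteratedDeriv 2 H (z.re - x0))) := by
        rw [← Lp2_re hH x0 z, ← Lp2_add hS (hφS.add hw.sm) hHS hz]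
        rfl
      rw [h2]
      have h3 : Lp2 (fun z => φ z + w z) z + iteratedDeriv 2 H (z.re - x0) ≤ |B| + 1 := by
        have h4 := hwB z hz hz2
        have h5 := (abs_le.1 (hHb 2 le_rfl (z.re - x0))).2
        linarith [le_abs_self B]
      have h6 : Real.exp (-2 * (c + cH)) * Real.exp (-2 * ((φ z + w z) + H (z.re - x0))) ≤
          Real.exp (2 * (C + 4)) := by
        rw [← Real.exp_add]
        refine Real.exp_le_exp.2 ?_
        have c1 := (abs_le.1 hc).1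
        have c2 := (abs_le.1 hcH).1
        have c3 := (abs_le.1 (hCb z hz2)).1
        have c4 := (abs_le.1 (hw1 z hz)).1
        have c5 := (abs_le.1 (hHb 0 (by norm_num) (z.re - x0))).1
        rw [iteratedDeriv_zero] at c5
        linarith
      have h7 : 0 < Real.exp (-2 * (c + cH)) *
          Real.exp (-2 * ((φ z + w z) + H (z.re - x0))) := by positivity
      have h8 : Real.exp (-2 * (c + cH)) * Real.exp (-2 * ((φ z + w z) + H (z.re - x0))) *
          (Lp2 (fun z => φ z + w z) z + iteratedDeriv 2 H (z.re - x0)) ≤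
          Real.exp (2 * (C + 4)) * (|B| + 1) :=
        (mul_le_mul_of_nonneg_left h3 h7.le).trans
          (mul_le_mul_of_nonneg_right h6 (by positivity))
      linarith
    · refine key0 z (hSΩ hz) ?_
      have hop : IsOpen {ζ : ℂ | δ / 2 < |ζ.re - x0|} := isOpen_lt continuous_const (by fun_prop)
      filter_upwards [hS.mem_nhds hz, hop.mem_nhds hz2] with ζ hζ hζ2
      have hζ3 : δ / 2 ≤ |ζ.re - x0| := le_of_lt hζ2
      rw [b3 ζ hζ]
      show w ζ + H (ζ.re - x0) = 0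
      rw [hwz ζ hζ hζ3, hHz _ hζ3, add_zero]
  intro z hz
  by_cases hz2 : pr z ∈ pr '' Sx x0 δ
  · obtain ⟨z', hz', he⟩ := hz2
    rw [hinv' z z' hz (hSΩ hz') he.symm]
    exact key1 z' hz'
  · exact key0 z hz (b5 z hz hz2)

end Pool.Agent.H591.GU
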